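import Mathlib
import Pool.Agent.MP_36f78e_lc.H75.Spec

/-!
Quantum circuits on a sparse random oracle are simulated by decision trees.
-/

set_option linter.unusedSectionVars false

namespace Pool.Agent.MP_36f78e_lc.H52

open Pool.Agent.MP_36f78e_lc.H24 Pool.Agent.MP_36f78e_lc.H24.Cl Pool.Agent.MP_36f78e_lc.H75 Finset
open scoped BigOperators

section

variable {ι : Type} [Fintype ι] [DecidableEq ι]

lemma fill_update {β : Restr ι} {i : ι} (hi : β i = none) (b : Bool) (x : ι → Bool) :
    fill (Function.update β i (some b)) x = fill β (Function.update x i b) := by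
  funext k
  by_cases h : k = i
  · subst h; simp [fill, hi]
  · simp [fill, h]

lemma dt_congr {f f' : (ι → Bool) → Bool} {β : Restr ι} {s : ℕ} (h : DT f β s)
    (e : ∀ x, f' (fill β x) = f (fill β x)) : DT f' β s := by
  induction h with
  | leaf β s c h => exact .leaf β s c fun x => (e x).trans (h x)
  | node β s i hi _ ih =>
    exact .node β s i hi fun b => ih b fun x => by rw [fill_update hi]; exact e _

/-- The fixed coordinates. -/
def supp (β : Restr ι) : Finset ι := univ.filter fun i => β i ≠ none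

lemma supp_update (β : Restr ι) (i : ι) (b : Bool) :
    supp (Function.update β i (some b)) = insert i (supp β) := by
  ext k
  by_cases h : k = i
  · subst h; simp [supp]
  · simp [supp, h]

/-- A tree separates the two kinds of points on the subcube. -/
def Sep (hi lo : (ι → Bool) → Prop) (β : Restr ι) (j : ℕ) : Prop :=
  ∃ g, DT g β j ∧ ∀ x, (hi (fill β x) → g (fill β x) = true) ∧ (lo (fill β x) → g (fill β x) = false)

lemma Sep.glue {hi lo : (ι → Bool) → Prop} {β : Restr ι} {j : ℕ} {i : ι} (h0 : β i = none)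
    (h : ∀ b, Sep hi lo (Function.update β i (some b)) j) : Sep hi lo β (j + 1) := by
  choose G h1 h2 using h
  refine ⟨fun x => G (x i) x, .node β j i h0 fun b => dt_congr (h1 b) fun x => ?_, fun x => ?_⟩
  · have : fill (Function.update β i (some b)) x i = b := by simp [fill]
    simp only [this]
  · have e := fill_update h0 (x i) x
    rw [Function.update_eq_self] at e
    have e' : fill β x i = x i := by simp [fill, h0]
    have := h2 (x i) x
    rw [e] at this
    simpa only [e'] using this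

/-- The weight of the sequences of queries that stay inside `O`. -/
noncomputable def W (μ : Restr ι → ι → ℝ) (O : Finset ι) : ℕ → Restr ι → ℝ
  | 0, β => if supp β ⊆ O then 1 else 0
  | j + 1, β => ∑ i ∈ (supp β)ᶜ, μ β i * ∑ b, W μ O j (Function.update β i (some b))

variable {μ : Restr ι → ι → ℝ}

lemma W_nonneg (h0 : ∀ β i, 0 ≤ μ β i) (O : Finset ι) (j : ℕ) (β : Restr ι) : 0 ≤ W μ O j β := by
  induction j generalizing β with
  | zero => unfold W; split_ifs <;> norm_num
  | succ j ih => exact sum_nonneg fun i _ => mul_nonneg (h0 _ _) (sum_nonneg fun b _ => ih _)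

open Classical in
lemma W_ge (h0 : ∀ β i, 0 ≤ μ β i) {O : Finset ι} {θ : ℝ} (hθ : 0 ≤ θ)
    {hi lo : (ι → Bool) → Prop}
    (hs : ∀ β, supp β ⊆ O → ∑ i ∈ O \ supp β, μ β i < θ → ∀ x x', hi (fill β x) → ¬ lo (fill β x'))
    (j : ℕ) (β : Restr ι) (hβ : supp β ⊆ O) (h : ¬ Sep hi lo β j) : θ ^ j ≤ W μ O j β := by
  induction j generalizing β with
  | zero => simp [W, hβ]
  | succ j ih =>
    have h1 : θ ≤ ∑ i ∈ O \ supp β, μ β i := by
      by_contra hc
      refine h ⟨fun _ => decide (∃ x, hi (fill β x)), .leaf β j _ fun _ => rfl, fun x => ⟨fun hx =>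
        decide_eq_true ⟨x, hx⟩, fun hx => decide_eq_false ?_⟩⟩
      rintro ⟨x', hx'⟩
      exact hs β hβ (not_le.1 hc) x' x hx' hx
    calc θ ^ (j + 1) = θ * θ ^ j := pow_succ' _ _
      _ ≤ (∑ i ∈ O \ supp β, μ β i) * θ ^ j := mul_le_mul_of_nonneg_right h1 (pow_nonneg hθ _)
      _ ≤ ∑ i ∈ O \ supp β, μ β i * ∑ b, W μ O j (Function.update β i (some b)) := by
          rw [sum_mul]
          refine sum_le_sum fun i hi => mul_le_mul_of_nonneg_left ?_ (h0 _ _)
          have hf : β i = none := by simpa [supp] using (mem_sdiff.1 hi).2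
          obtain ⟨b, hb⟩ := not_forall.1 fun h' => h (Sep.glue hf h')
          refine (ih _ ?_ hb).trans (single_le_sum
            (f := fun b => W μ O j (Function.update β i (some b)))
            (fun b _ => W_nonneg h0 _ _ _) (mem_univ b))
          rw [supp_update]
          exact insert_subset (mem_sdiff.1 hi).1 hβ
      _ ≤ _ := sum_le_sum_of_subset_of_nonneg (fun i hi => mem_compl.2 (mem_sdiff.1 hi).2)
          fun i _ _ => mul_nonneg (h0 _ _) (sum_nonneg fun b _ => W_nonneg h0 _ _ _)

lemma expect_W_le {Ω : Type} [Fintype Ω] [Nonempty Ω] (h0 : ∀ β i, 0 ≤ μ β i) {T : ℝ}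
    (hT : 0 ≤ T) (h1 : ∀ β, ∑ i, μ β i ≤ T) (O : Ω → Finset ι) {ρ : ℝ} (hρ : 0 ≤ ρ) {t : ℕ}
    (h : ∀ Y : Finset ι, Y.card ≤ t → 𝔼 ω, (if Y ⊆ O ω then 1 else 0 : ℝ) ≤ ρ ^ Y.card)
    (j : ℕ) (β : Restr ι) (ht : (supp β).card + j ≤ t) :
    𝔼 ω, W μ (O ω) j β ≤ ρ ^ ((supp β).card + j) * (2 * T) ^ j := by
  induction j generalizing β with
  | zero => simpa [W] using h _ ht
  | succ j ih =>
    simp only [W]
    rw [expect_sum_comm]
    calc _ ≤ ∑ i ∈ (supp β)ᶜ, μ β i * (2 * (ρ ^ ((supp β).card + (j + 1)) * (2 * T) ^ j)) := by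
          refine sum_le_sum fun i hi => ?_
          rw [← mul_expect, expect_sum_comm]
          refine mul_le_mul_of_nonneg_left ?_ (h0 _ _)
          refine (sum_le_card_nsmul _ _ (ρ ^ ((supp β).card + (j + 1)) * (2 * T) ^ j)
            fun b _ => ?_).trans (by simp)
          have e : (supp (Function.update β i (some b))).card = (supp β).card + 1 := by
            rw [supp_update, card_insert_of_notMem (mem_compl.1 hi)]
          have := ih (Function.update β i (some b)) (by omega)
          rwa [e, add_assoc, add_comm 1 j] at this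
      _ ≤ T * (2 * (ρ ^ ((supp β).card + (j + 1)) * (2 * T) ^ j)) := by
          rw [← sum_mul]
          exact mul_le_mul_of_nonneg_right ((sum_le_sum_of_subset_of_nonneg (subset_univ _)
            fun i _ _ => h0 _ _).trans (h1 β)) (by positivity)
      _ = _ := by ring

end

/-- Two oracles that a verifier tells apart cannot both be close to a third one. -/
lemma sep {V : Verifier} (hV : V.Valid) {B A A' : List Bool → Bool} {D : Finset (List Bool)}
    (hA : ∀ s ∉ D, B s = A s) (hA' : ∀ s ∉ D, B s = A' s) (w : (Fin V.p → Bool) → ℂ)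
    (h1 : V.accProb A w ≤ 1 / 3) (h2 : 2 / 3 ≤ V.accProb A' w) :
    1 / (2304 * ((V.queries : ℝ) + 1)) ≤ ∑ s ∈ D, mass B V.gates (init V.q w) s := by
  have hT : (0 : ℝ) ≤ V.queries := Nat.cast_nonneg _
  have h3 := gap V.acc _ _ h1 h2
  have h4 := hybrid hA (ε := 1 / (48 * ((V.queries : ℝ) + 1))) (by positivity) V.gates hV.gv
    (init V.q w)
  have h5 := hybrid hA' (ε := 1 / (48 * ((V.queries : ℝ) + 1))) (by positivity) V.gates hV.gv
    (init V.q w)
  have h6 := nr_sub_le (run B V.gates (init V.q w) - run A' V.gates (init V.q w))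
    (run B V.gates (init V.q w) - run A V.gates (init V.q w))
  rw [sub_sub_sub_cancel_left] at h6
  have h7 : 1 / (48 * ((V.queries : ℝ) + 1)) * V.queries ≤ 1 / 48 := by
    rw [div_mul_eq_mul_div, div_le_div_iff₀ (by positivity) (by positivity)]
    linarith
  rw [div_le_iff₀ (by positivity)]
  rw [div_div_eq_mul_div, div_one] at h4 h5
  have h8 : 1 / 6 ≤ nr (run A V.gates (init V.q w) - run A' V.gates (init V.q w)) := h3
  unfold Verifier.queries at *
  linarith

open Classical in
theorem sparse : SparseStmt := by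
  intro ι _ _ V hV orc str hd ho Ω _ _ O ρ t hρ hY
  have hT : (0 : ℝ) ≤ V.queries := Nat.cast_nonneg _
  set θ : ℝ := 1 / (2304 * ((V.queries : ℝ) + 1)) with hθ
  have θ0 : 0 < θ := by positivity
  set μ : (Fin V.p → Bool) → Restr ι → ι → ℝ := fun y β i =>
    ∑ s ∈ str i, mass (orc β) V.gates (init V.q (Pi.single y 1)) s with hμ
  have h0 : ∀ y β i, 0 ≤ μ y β i := fun y β i => sum_nonneg fun s _ => mass_nonneg _ _ _ _
  have hb : ∀ y β (I : Finset ι), ∑ i ∈ I, μ y β i =
      ∑ s ∈ I.biUnion str, mass (orc β) V.gates (init V.q (Pi.single y 1)) s := fun y β I =>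
    (sum_biUnion fun i _ j _ h => hd i j h).symm
  have h1 : ∀ y β, ∑ i, μ y β i ≤ V.queries := fun y β => by
    rw [hb]; exact sum_mass_basis hV _ y _
  have e0 : supp (fun _ : ι => none) = ∅ := by simp [supp]
  have key : ∀ ω, (if Good V orc t (O ω) then 0 else 1 : ℝ) * θ ^ t ≤
      ∑ y, W (μ y) (O ω) t fun _ => none := fun ω => by
    split_ifs with h
    · rw [zero_mul]; exact sum_nonneg fun y _ => W_nonneg (h0 y) _ _ _
    obtain ⟨y, hy⟩ := not_forall.1 h
    rw [one_mul]
    refine (W_ge (h0 y) θ0.le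
      (hi := fun x => 2 / 3 ≤ V.accProb (orc (full (O ω) x)) (Pi.single y 1))
      (lo := fun x => V.accProb (orc (full (O ω) x)) (Pi.single y 1) ≤ 1 / 3)
      (fun β hβ hs x x' hx hx' => ?_) t _ (by rw [e0]; exact empty_subset _) hy).trans
      (single_le_sum (f := fun y => W (μ y) (O ω) t fun _ => none)
        (fun y _ => W_nonneg (h0 y) _ _ _) (mem_univ y))
    have hA : ∀ x, ∀ s ∉ (O ω \ supp β).biUnion str, orc β s = orc (full (O ω) (fill β x)) s :=
      fun x s hs => ho _ _ s fun i hi => by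
        by_cases h2 : i ∈ supp β
        · obtain ⟨b, hb⟩ := Option.ne_none_iff_exists'.1 (mem_filter.1 h2).2
          simp [full, fill, hβ h2, hb]
        · have h3 : β i = none := by simpa [supp] using h2
          have h4 : i ∉ O ω := fun h4 => hs (mem_biUnion.2 ⟨i, mem_sdiff.2 ⟨h4, h2⟩, hi⟩)
          simp [full, h3, h4]
    rw [hb] at hs
    exact absurd (sep hV (hA x') (hA x) _ hx' hx) (not_le.2 hs)
  have h2 : (𝔼 ω, (if Good V orc t (O ω) then 0 else 1 : ℝ)) * θ ^ t ≤
      2 ^ V.p * (ρ ^ t * (2 * V.queries) ^ t) := by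
    rw [expect_mul]
    refine (expect_le_expect fun ω _ => key ω).trans ?_
    rw [expect_sum_comm]
    refine (sum_le_card_nsmul _ _ (ρ ^ t * (2 * V.queries) ^ t) fun y _ => ?_).trans (by simp)
    simpa [e0] using expect_W_le (h0 y) hT (h1 y) O hρ hY t (fun _ => none) (by simp [e0])
  rw [← le_div_iff₀ (pow_pos θ0 t)] at h2
  refine h2.trans ?_
  rw [mul_div_assoc, ← mul_pow, ← div_pow]
  refine mul_le_mul_of_nonneg_left (pow_le_pow_left₀ (by positivity) ?_ t) (by positivity)
  rw [hθ, div_div_eq_mul_div, div_one]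
  nlinarith [mul_nonneg hρ hT, mul_nonneg hρ (mul_nonneg hT hT)]

end Pool.Agent.MP_36f78e_lc.H52
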